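import Pool.Agent.Helper99.LN.Defs
import Pool.Agent.Helper5.HG.G3
import Pool.Agent.Helper99.HG.HT
import Pool.Agent.Helper21.HG.Mert

/-!
# Project LN, block UP: the weighted number of the sets of primes which avoid a set of primes
-/

set_option autoImplicit false

namespace Pool.Agent.LN

open Pool.Agent.Helper99.HG
open Pool.Agent.HG (Pr nm sys5)

/-- the elementary inequality for the sets without elements of `T`, with the weights `w ^ |c|` -/
theorem hallw29 {k : ℕ} {G : Type} {D : CD k G} (hS : Sys D.P D.nm) {w : ℝ} (hw : 0 ≤ w) :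
    ∃ C : ℝ, 0 < C ∧ ∀ X : ℕ, 2 ≤ X → ∀ T : Finset D.P, (∀ p ∈ T, D.nm p ≤ X) →
    ∀ S : Finset (Finset D.P), (∀ c ∈ S, Nm D c ≤ X ∧ Disjoint c T) →
    ∑ c ∈ S, w ^ c.card ≤
      C * X * Real.exp ((w - 1) * Real.log (Real.log X) - w * ∑ p ∈ T, (1 : ℝ) / D.nm p) := by
  classical
  obtain ⟨C₁, hC₁⟩ := hS.cheb
  obtain ⟨C₂, hC₂⟩ := hS.mert
  have hC₁0 : 0 ≤ C₁ := by
    have := hC₁ 1 ∅ (by simp)
    simpa using this
  -- the sum of the reciprocals
  obtain ⟨C₃, hC₃⟩ : ∃ C₃ : ℝ, ∀ X : ℕ, 2 ≤ X →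
      ∑ p ∈ pr D X, (1 : ℝ) / D.nm p ≤ Real.log (Real.log X) + C₃ := by
    refine ⟨(pr D 2).card + (-Real.log (Real.log (2 : ℕ)) + C₂), fun X hX => ?_⟩
    have h1 := hC₂ 2 X le_rfl hX ((pr D X).filter fun p => 2 < D.nm p) (by
      intro p hp
      exact ⟨(Finset.mem_filter.mp hp).2, (mem_pr hS).mp (Finset.mem_filter.mp hp).1⟩)
    have h2 : ∑ p ∈ (pr D X).filter (fun p => ¬ 2 < D.nm p), (1 : ℝ) / D.nm p ≤ (pr D 2).card := by
      have h3 : ∑ p ∈ (pr D X).filter (fun p => ¬ 2 < D.nm p), (1 : ℝ) / D.nm p ≤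
          ∑ p ∈ (pr D X).filter (fun p => ¬ 2 < D.nm p), (1 : ℝ) := by
        refine Finset.sum_le_sum fun p _ => ?_
        have : (2 : ℝ) ≤ D.nm p := by exact_mod_cast hS.two p
        rw [div_le_one (by linarith)]
        linarith
      rw [Finset.sum_const, nsmul_eq_mul, mul_one] at h3
      refine h3.trans ?_
      have h4 : (pr D X).filter (fun p => ¬ 2 < D.nm p) ⊆ pr D 2 := by
        intro p hp
        rw [mem_pr hS]
        have := (Finset.mem_filter.mp hp).2
        omega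
      exact_mod_cast Finset.card_le_card h4
    rw [← Finset.sum_filter_add_sum_filter_not (pr D X) (fun p => 2 < D.nm p)]
    linarith
  refine ⟨(w * C₁ + 1) * Real.exp (w * C₃), by positivity, ?_⟩
  intro X hX T hT S hSX
  have hXp : (0 : ℝ) < X := by exact_mod_cast (by omega : 0 < X)
  have hlX : 0 < Real.log X := Real.log_pos (by exact_mod_cast (by omega : 1 < X))
  have hw0 : ∀ n : ℕ, 0 ≤ w ^ n := fun n => pow_nonneg hw n
  -- all admissible sets
  set A := (pr D X).powerset.filter (fun c => Nm D c ≤ X ∧ Disjoint c T) with hA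
  have hSA : S ⊆ A := by
    intro c hc
    obtain ⟨h1, h2⟩ := hSX c hc
    refine Finset.mem_filter.mpr ⟨Finset.mem_powerset.mpr fun p hp => ?_, h1, h2⟩
    rw [mem_pr hS]
    exact (nm_le_Nm hS hp).trans h1
  refine (Finset.sum_le_sum_of_subset_of_nonneg hSA fun c _ _ => hw0 _).trans ?_
  have hpos : ∀ c : Finset D.P, (0 : ℝ) < Nm D c := fun c => by exact_mod_cast Nm_pos hS c
  -- the sum of the logarithms of the norms
  have hlog : ∀ c : Finset D.P, Real.log (Nm D c) = ∑ p ∈ c, Real.log (D.nm p) := by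
    intro c
    unfold Nm
    rw [Nat.cast_prod, Real.log_prod]
    intro p _
    have := hS.two p
    exact_mod_cast (by omega : D.nm p ≠ 0)
  have hl0 : ∀ p, 0 ≤ Real.log (D.nm p) := fun p => Real.log_nonneg (by
    have := hS.two p
    exact_mod_cast (by omega : 1 ≤ D.nm p))
  have h1 : ∑ c ∈ A, w ^ c.card * Real.log (Nm D c) ≤
      ∑ m ∈ A, ∑ p ∈ pr D (X / Nm D m), w ^ (m.card + 1) * Real.log (D.nm p) := by
    simp only [hlog, Finset.mul_sum]
    rw [Finset.sum_sigma', Finset.sum_sigma']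
    have hinj : Set.InjOn (fun x : (_ : Finset D.P) × D.P =>
        (⟨x.1.erase x.2, x.2⟩ : (_ : Finset D.P) × D.P))
        (A.sigma fun c => c : Finset ((_ : Finset D.P) × D.P)) := by
      rintro ⟨c, p⟩ h ⟨c', p'⟩ h' e
      have e1 : c.erase p = c'.erase p' := congrArg Sigma.fst e
      have e2 : p = p' := by
        have := congrArg Sigma.snd e
        simpa using this
      subst e2
      have g1 := (Finset.mem_sigma.mp (Finset.mem_coe.mp h)).2
      have g2 := (Finset.mem_sigma.mp (Finset.mem_coe.mp h')).2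
      simp only at g1 g2
      have : c = c' := by rw [← Finset.insert_erase g1, ← Finset.insert_erase g2, e1]
      rw [this]
    calc ∑ x ∈ A.sigma fun c => c, w ^ x.1.card * Real.log (D.nm x.2) =
        ∑ x ∈ A.sigma fun c => c, w ^ ((x.1.erase x.2).card + 1) * Real.log (D.nm x.2) := by
          refine Finset.sum_congr rfl fun x hx => ?_
          rw [Finset.card_erase_add_one (Finset.mem_sigma.mp hx).2]
      _ = ∑ y ∈ (A.sigma fun c => c).image (fun x : (_ : Finset D.P) × D.P =>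
          (⟨x.1.erase x.2, x.2⟩ : (_ : Finset D.P) × D.P)),
          w ^ (y.1.card + 1) * Real.log (D.nm y.2) := by
          rw [Finset.sum_image hinj]
      _ ≤ _ := by
        refine Finset.sum_le_sum_of_subset_of_nonneg ?_ fun y _ _ => mul_nonneg (hw0 _) (hl0 _)
        intro y hy
        obtain ⟨⟨c, p⟩, hx, rfl⟩ := Finset.mem_image.mp hy
        obtain ⟨g1, g2⟩ := Finset.mem_sigma.mp hx
        simp only at g1 g2
        obtain ⟨g3, g4, g5⟩ := Finset.mem_filter.mp g1
        have e : D.nm p * Nm D (c.erase p) = Nm D c := Finset.mul_prod_erase c D.nm g2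
        refine Finset.mem_sigma.mpr ⟨Finset.mem_filter.mpr ⟨?_, ?_, ?_⟩, ?_⟩
        · exact Finset.mem_powerset.mpr ((Finset.erase_subset _ _).trans (Finset.mem_powerset.mp g3))
        · refine le_trans (Nat.le_of_dvd (Nm_pos hS c) ⟨D.nm p, ?_⟩) g4
          simp only
          rw [← e]
          ring
        · exact Finset.disjoint_of_subset_left (Finset.erase_subset _ _) g5
        · simp only
          rw [mem_pr hS, Nat.le_div_iff_mul_le (Nm_pos hS _), e]
          exact g4
  have h2 : ∑ c ∈ A, w ^ c.card * Real.log (Nm D c) ≤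
      w * C₁ * X * ∑ m ∈ A, w ^ m.card / Nm D m := by
    refine h1.trans ?_
    rw [Finset.mul_sum]
    refine Finset.sum_le_sum fun m _ => ?_
    rw [← Finset.mul_sum]
    have g0 := hC₁ (X / Nm D m) (pr D (X / Nm D m)) fun p hp => (mem_pr hS).mp hp
    have g : ((X / Nm D m : ℕ) : ℝ) ≤ X / Nm D m := Nat.cast_div_le
    calc w ^ (m.card + 1) * ∑ p ∈ pr D (X / Nm D m), Real.log (D.nm p) ≤
          w ^ (m.card + 1) * (C₁ * (X / Nm D m)) :=
          mul_le_mul_of_nonneg_left (g0.trans (mul_le_mul_of_nonneg_left g hC₁0)) (hw0 _)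
      _ = _ := by ring
  have h3 : ∑ c ∈ A, w ^ c.card * (Real.log X - Real.log (Nm D c)) ≤
      X * ∑ m ∈ A, w ^ m.card / Nm D m := by
    rw [Finset.mul_sum]
    refine Finset.sum_le_sum fun c _ => ?_
    rw [← Real.log_div hXp.ne' (hpos c).ne']
    have := Real.log_le_sub_one_of_pos (div_pos hXp (hpos c))
    calc w ^ c.card * Real.log (X / Nm D c) ≤ w ^ c.card * (X / Nm D c) :=
          mul_le_mul_of_nonneg_left (by linarith) (hw0 _)
      _ = _ := by ring
  have h4 : (∑ c ∈ A, w ^ c.card) * Real.log X ≤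
      (w * C₁ + 1) * X * ∑ m ∈ A, w ^ m.card / Nm D m := by
    simp only [mul_sub, Finset.sum_sub_distrib, ← Finset.sum_mul] at h3
    linarith
  -- the Euler product
  have h5 : ∑ m ∈ A, w ^ m.card / Nm D m ≤
      Real.exp (∑ p ∈ pr D X \ T, w / D.nm p) := by
    have e1 : ∀ m : Finset D.P, w ^ m.card / Nm D m = ∏ p ∈ m, w / D.nm p := by
      intro m
      unfold Nm
      rw [Finset.prod_div_distrib, Finset.prod_const, Nat.cast_prod]
    simp only [e1]
    calc ∑ m ∈ A, ∏ p ∈ m, w / D.nm p ≤ ∑ m ∈ (pr D X \ T).powerset, ∏ p ∈ m, w / D.nm p := by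
          refine Finset.sum_le_sum_of_subset_of_nonneg ?_ fun s _ _ =>
            Finset.prod_nonneg fun p _ => by positivity
          intro m hm
          obtain ⟨g1, g2, g3⟩ := Finset.mem_filter.mp hm
          rw [Finset.mem_powerset] at g1 ⊢
          intro p hp
          exact Finset.mem_sdiff.mpr ⟨g1 hp, fun h => Finset.disjoint_left.mp g3 hp h⟩
      _ = ∏ p ∈ pr D X \ T, (1 + w / D.nm p) := by rw [Finset.prod_one_add]
      _ ≤ ∏ p ∈ pr D X \ T, Real.exp (w / D.nm p) := by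
          refine Finset.prod_le_prod (fun p _ => by positivity) fun p _ => ?_
          rw [add_comm]
          exact Real.add_one_le_exp _
      _ = _ := by rw [Real.exp_sum]
  have h6 : ∑ p ∈ pr D X \ T, w / D.nm p ≤
      w * (Real.log (Real.log X) + C₃ - ∑ p ∈ T, (1 : ℝ) / D.nm p) := by
    have hTX : T ⊆ pr D X := fun p hp => (mem_pr hS).mpr (hT p hp)
    have g1 := Finset.sum_sdiff hTX (f := fun p => (1 : ℝ) / D.nm p)
    have g2 := hC₃ X hX
    have g3 : ∑ p ∈ pr D X \ T, w / D.nm p = w * ∑ p ∈ pr D X \ T, (1 : ℝ) / D.nm p := by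
      rw [Finset.mul_sum]
      exact Finset.sum_congr rfl fun p _ => by ring
    rw [g3]
    exact mul_le_mul_of_nonneg_left (by linarith) hw
  have h7 : Real.exp (∑ p ∈ pr D X \ T, w / D.nm p) ≤ Real.log X * (Real.exp (w * C₃) *
      Real.exp ((w - 1) * Real.log (Real.log X) - w * ∑ p ∈ T, (1 : ℝ) / D.nm p)) := by
    calc Real.exp (∑ p ∈ pr D X \ T, w / D.nm p) ≤
          Real.exp (Real.log (Real.log X) + (w * C₃ + ((w - 1) * Real.log (Real.log X) -
            w * ∑ p ∈ T, (1 : ℝ) / D.nm p))) := by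
          refine Real.exp_le_exp.mpr (h6.trans (le_of_eq ?_))
          ring
      _ = _ := by rw [Real.exp_add, Real.exp_add, Real.exp_log hlX]
  have h8 : (∑ c ∈ A, w ^ c.card) * Real.log X ≤ ((w * C₁ + 1) * Real.exp (w * C₃) * X *
      Real.exp ((w - 1) * Real.log (Real.log X) - w * ∑ p ∈ T, (1 : ℝ) / D.nm p)) *
        Real.log X := by
    calc (∑ c ∈ A, w ^ c.card) * Real.log X ≤ (w * C₁ + 1) * X * (Real.log X *
          (Real.exp (w * C₃) *
            Real.exp ((w - 1) * Real.log (Real.log X) - w * ∑ p ∈ T, (1 : ℝ) / D.nm p))) :=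
          h4.trans (mul_le_mul_of_nonneg_left (h5.trans h7) (by positivity))
      _ = _ := by ring
  exact le_of_mul_le_mul_right h8 hlX

/-- **BLOCK UP.** -/
theorem up : StmtUP := by
  classical
  intro k _ _ w hw Q δ C B hB hC
  let DD : CD 1 ℤˣ :=
    { P := Pr k, nm := nm, Ex := ∅, O := Unit, ι := Unit, V := fun _ => ∅, cmp := fun _ => 0,
      I := fun _ _ _ => ∅, χ := fun _ _ _ _ => 1, g := fun _ _ _ => 1 }
  have hS : Sys DD.P DD.nm := sys5 Pool.Agent.Helper21.HG.mert k
  have hw0 : (0 : ℝ) ≤ w := Nat.cast_nonneg w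
  obtain ⟨C₁, hC₁, hh⟩ := hallw29 hS hw0
  refine ⟨C₁ * Real.exp (w * C), by positivity, fun x hx S hSx => ?_⟩
  have hx0 : (0 : ℝ) ≤ x := Nat.cast_nonneg x
  have hl0 : 0 < Real.log x := Real.log_pos (by exact_mod_cast (by omega : 1 < x))
  have h1 := hh x (by omega) (@Finset.filter _ (· ∈ Q) (Classical.decPred _) (B x))
    (fun p hp => (hB x p).1 (Finset.mem_filter.1 hp).1) S
    (fun s hs => ⟨(hSx s hs).1, Finset.disjoint_left.2 fun v hv hv' =>
      (hSx s hs).2 v (Finset.mem_filter.1 hv').2 hv⟩)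
  have h2 := hC x (by omega)
  refine h1.trans ?_
  have h3 : Real.exp (((w : ℝ) - 1) * Real.log (Real.log x) -
      w * Finset.sum (@Finset.filter _ (· ∈ Q) (Classical.decPred _) (B x))
        fun v => (1 : ℝ) / nm v) ≤ Real.exp (w * C) * Real.log x ^ ((w : ℝ) * (1 - δ) - 1) := by
    rw [Real.rpow_def_of_pos hl0, ← Real.exp_add]
    refine Real.exp_le_exp.2 ?_
    have h4 := mul_le_mul_of_nonneg_left h2 hw0
    linarith
  calc C₁ * x * Real.exp (((w : ℝ) - 1) * Real.log (Real.log x) -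
        w * ∑ p ∈ (@Finset.filter _ (· ∈ Q) (Classical.decPred _) (B x)), (1 : ℝ) / DD.nm p) ≤
        C₁ * x * (Real.exp (w * C) * Real.log x ^ ((w : ℝ) * (1 - δ) - 1)) :=
        mul_le_mul_of_nonneg_left h3 (by positivity)
    _ = C₁ * Real.exp (w * C) * x * Real.log x ^ ((w : ℝ) * (1 - δ) - 1) := by ring

end Pool.Agent.LN
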